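import Mathlib
set_option autoImplicit false
/-!
# Symmetric chain decomposition of the grid `[k]^d`; the width is the size of the largest level
-/
namespace Pool.Agent.X44.GW
open Finset

/-- A symmetric chain decomposition of a ranked order `P` with ranks `0, …, N`. -/
structure SCD (P : Type) [LE P] (rk : P → ℕ) (N : ℕ) where
  T : Type
  lab : P → T
  a : T → ℕ
  pt : T → ℕ → P
  hT : ∀ t, 2 * a t ≤ N
  ha1 : ∀ x, a (lab x) ≤ rk x
  ha2 : ∀ x, rk x + a (lab x) ≤ N
  hpt : ∀ x, pt (lab x) (rk x) = x
  hlab : ∀ t i, a t ≤ i → i + a t ≤ N → lab (pt t i) = t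
  hrk : ∀ t i, a t ≤ i → i + a t ≤ N → rk (pt t i) = i
  hmono : ∀ t i j, a t ≤ i → i ≤ j → j + a t ≤ N → pt t i ≤ pt t j

/-- product with a chain of `k` elements -/
def SCD.prod {P : Type} [PartialOrder P] {rk : P → ℕ} {N : ℕ} (S : SCD P rk N) (k : ℕ) (hk : 0 < k) :
    SCD (P × Fin k) (fun p => rk p.1 + (p.2 : ℕ)) (N + (k - 1)) where
  T := {p : S.T × ℕ // p.2 + 2 * S.a p.1 ≤ N ∧ p.2 < k}
  lab := fun p => ⟨(S.lab p.1, min (p.2 : ℕ) (N - S.a (S.lab p.1) - rk p.1)), by
    have h1 := S.ha1 p.1
    have h2 := S.ha2 p.1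
    have h3 := p.2.2
    constructor
    · show min (p.2 : ℕ) (N - S.a (S.lab p.1) - rk p.1) + 2 * S.a (S.lab p.1) ≤ N
      omega
    · show min (p.2 : ℕ) (N - S.a (S.lab p.1) - rk p.1) < k
      omega⟩
  a := fun t => S.a t.1.1 + t.1.2
  pt := fun t r => if r + S.a t.1.1 ≤ N then (S.pt t.1.1 (r - t.1.2), ⟨t.1.2, t.2.2⟩)
    else (S.pt t.1.1 (N - S.a t.1.1 - t.1.2), ⟨min (r - (N - S.a t.1.1 - t.1.2)) (k - 1), by omega⟩)
  hT := by
    rintro ⟨⟨t, j⟩, h1, h2⟩
    simp only at h1 h2 ⊢
    omega
  ha1 := by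
    rintro ⟨x, s⟩
    have h1 := S.ha1 x
    simp only
    omega
  ha2 := by
    rintro ⟨x, s⟩
    have h1 := S.ha1 x
    have h2 := S.ha2 x
    have h3 := s.2
    simp only
    omega
  hpt := by
    rintro ⟨x, s⟩
    have h1 := S.ha1 x
    have h2 := S.ha2 x
    have h3 := s.2
    simp only
    split_ifs with h
    · have e1 : min (s : ℕ) (N - S.a (S.lab x) - rk x) = s := by omega
      refine Prod.ext ?_ (Fin.ext ?_)
      · simp only [e1]
        rw [Nat.add_sub_cancel]
        exact S.hpt x
      · exact e1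
    · have e1 : min (s : ℕ) (N - S.a (S.lab x) - rk x) = N - S.a (S.lab x) - rk x := by omega
      have e2 : N - S.a (S.lab x) - (N - S.a (S.lab x) - rk x) = rk x := by omega
      refine Prod.ext ?_ (Fin.ext ?_)
      · simp only [e1, e2]
        exact S.hpt x
      · simp only [e1, e2]
        omega
  hlab := by
    rintro ⟨⟨t, j⟩, h1, h2⟩ r h3 h4
    simp only at h1 h2 h3 h4
    apply Subtype.ext
    simp only
    split_ifs with h
    · have e0 := S.hlab t (r - j) (by omega) (by omega)
      have e1 := S.hrk t (r - j) (by omega) (by omega)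
      simp only [e0, e1]
      refine Prod.ext rfl ?_
      simp only
      omega
    · have e0 := S.hlab t (N - S.a t - j) (by omega) (by omega)
      have e1 := S.hrk t (N - S.a t - j) (by omega) (by omega)
      simp only [e0, e1]
      refine Prod.ext rfl ?_
      simp only
      omega
  hrk := by
    rintro ⟨⟨t, j⟩, h1, h2⟩ r h3 h4
    simp only at h1 h2 h3 h4
    simp only
    split_ifs with h
    · have e1 := S.hrk t (r - j) (by omega) (by omega)
      simp only [e1]
      omega
    · have e1 := S.hrk t (N - S.a t - j) (by omega) (by omega)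
      simp only [e1]
      omega
  hmono := by
    rintro ⟨⟨t, j⟩, h1, h2⟩ r r' h3 h4 h5
    simp only at h1 h2 h3 h5
    simp only
    split_ifs with h h' h'
    · refine ⟨S.hmono t _ _ (by omega) (by omega) (by omega), ?_⟩
      exact le_refl _
    · refine ⟨S.hmono t _ _ (by omega) (by omega) (by omega), ?_⟩
      show j ≤ min (r' - (N - S.a t - j)) (k - 1)
      omega
    · exfalso; omega
    · refine ⟨le_refl _, ?_⟩
      show min (r - (N - S.a t - j)) (k - 1) ≤ min (r' - (N - S.a t - j)) (k - 1)
      omega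

/-- transport along an order isomorphism -/
def SCD.map {P Q : Type} [LE P] [LE Q] {rk : P → ℕ} {rk' : Q → ℕ} {N : ℕ} (S : SCD P rk N)
    (e : Q ≃ P) (he : ∀ x y, e x ≤ e y → x ≤ y) (hr : ∀ x, rk' x = rk (e x)) : SCD Q rk' N where
  T := S.T
  lab := fun x => S.lab (e x)
  a := S.a
  pt := fun t i => e.symm (S.pt t i)
  hT := S.hT
  ha1 := fun x => by rw [hr]; exact S.ha1 _
  ha2 := fun x => by rw [hr]; exact S.ha2 _
  hpt := fun x => by rw [hr, S.hpt, Equiv.symm_apply_apply]
  hlab := fun t i h1 h2 => by rw [Equiv.apply_symm_apply]; exact S.hlab t i h1 h2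
  hrk := fun t i h1 h2 => by rw [hr, Equiv.apply_symm_apply]; exact S.hrk t i h1 h2
  hmono := fun t i j h1 h2 h3 => by
    apply he
    rw [Equiv.apply_symm_apply, Equiv.apply_symm_apply]
    exact S.hmono t i j h1 h2 h3

/-- the splitting of the last grid coordinate -/
def splitE (k d : ℕ) : (Fin (d + 1) → Fin k) ≃ (Fin d → Fin k) × Fin k where
  toFun x := (fun i => x i.succ, x 0)
  invFun p := Fin.cons p.2 p.1
  left_inv x := by
    funext i
    refine Fin.cases ?_ (fun i => ?_) i
    · rfl
    · rfl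
  right_inv p := by
    refine Prod.ext ?_ ?_
    · funext i; rfl
    · rfl

noncomputable def gridSCD (k : ℕ) (hk : 0 < k) : (d : ℕ) →
    SCD (Fin d → Fin k) (fun x => ∑ i, (x i : ℕ)) (d * (k - 1))
  | 0 => {
      T := Unit
      lab := fun _ => ()
      a := fun _ => 0
      pt := fun _ _ => Fin.elim0
      hT := fun _ => by simp
      ha1 := fun _ => by simp
      ha2 := fun _ => by simp
      hpt := fun x => by funext i; exact i.elim0
      hlab := fun _ _ _ _ => rfl
      hrk := fun _ i _ h => by simp at h ⊢; exact h.symm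
      hmono := fun _ _ _ _ _ _ => le_refl _ }
  | d + 1 => by
      have S := (gridSCD k hk d).prod k hk
      have h : d * (k - 1) + (k - 1) = (d + 1) * (k - 1) := by ring
      rw [h] at S
      refine S.map (splitE k d) ?_ ?_
      · intro x y hxy i
        refine Fin.cases ?_ (fun i => ?_) i
        · exact hxy.2
        · exact hxy.1 i
      · intro x
        rw [Fin.sum_univ_succ]
        simp only [splitE, Equiv.coe_fn_mk]
        omega

/-- **Sperner property of the grid.** An antichain of `[k]^d` is at most as large as the middle level. -/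
theorem antichain_le (k d : ℕ) (hk : 0 < k) (F : Finset (Fin d → Fin k))
    (hF : IsAntichain (· ≤ ·) (F : Set (Fin d → Fin k))) :
    F.card ≤ (Finset.univ.filter (fun x : Fin d → Fin k => ∑ i, (x i : ℕ) = d * (k - 1) / 2)).card := by
  classical
  set S := gridSCD k hk d with hS
  set N := d * (k - 1) with hN
  apply Finset.card_le_card_of_injOn (fun x => S.pt (S.lab x) (N / 2))
  · intro x _
    rw [Finset.mem_coe, Finset.mem_filter]
    have h := S.hT (S.lab x)
    exact ⟨Finset.mem_univ _, S.hrk (S.lab x) (N / 2) (by omega) (by omega)⟩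
  · intro x hx y hy hxy
    have h1 := S.hT (S.lab x)
    have h2 := S.hT (S.lab y)
    have e1 := S.hlab (S.lab x) (N / 2) (by omega) (by omega)
    have e2 := S.hlab (S.lab y) (N / 2) (by omega) (by omega)
    simp only at hxy
    rw [hxy, e2] at e1
    by_contra hne
    have a1 := S.ha1 x
    have a2 := S.ha2 x
    have b1 := S.ha1 y
    have b2 := S.ha2 y
    have p1 := S.hpt x
    have p2 := S.hpt y
    rw [e1] at p2 b1 b2
    rcases le_total (∑ i, (x i : ℕ)) (∑ i, (y i : ℕ)) with h | h
    · have := S.hmono (S.lab x) _ _ a1 h b2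
      rw [p1, p2] at this
      exact hF hx hy hne this
    · have := S.hmono (S.lab x) _ _ b1 h a2
      rw [p1, p2] at this
      exact hF hy hx (fun h => hne h.symm) this

end Pool.Agent.X44.GW
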